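import Pool.Agent.Helper35.MS.StK
import Pool.Agent.Helper67.PI.M_I1

/-!
Project MS (MP_925021_gt), module DIF: invariance of the flow in the sphere under diffeomorphisms.
-/

set_option autoImplicit false

namespace Helper24.MS

open Helper35.MS Helper35.PI Helper35.PI2 Helper32.CL
open scoped ContDiff Manifold Topology ENNReal BigOperators Matrix
open MeasureTheory Set Filter

/-- the local statement -/
private lemma local_inv (hNR : StNR) {n N : ℕ} (f h : EE n → EE N) (φ : EE n → EE n) (x : EE n)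
    (hf : ContDiffAt ℝ 2 f (φ x)) (hφ : ContDiffAt ℝ 2 φ x) (hh : h =ᶠ[𝓝 x] (fun y => f (φ y)))
    (hLI : LI h x) :
    LI f (φ x) ∧ ∃ J : Matrix (Fin n) (Fin n) ℝ, IsUnit J.det ∧
      gram h x = J * gram f (φ x) * J.transpose ∧
      J.transpose * (gram h x)⁻¹ * J = (gram f (φ x))⁻¹ ∧
      ∀ i j, sfs h x i j = ∑ a, ∑ b, (J i a * J j b) • sfs f (φ x) a b := by
  set y := φ x with hy
  set J : Matrix (Fin n) (Fin n) ℝ := Matrix.of fun i a => (fderiv ℝ φ x (ee i)) a with hJdef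
  have hJ : ∀ i, dv1 h x i = ∑ a, J i a • dv1 f y a := by
    intro i
    rw [Helper67.PI.first f h φ x hf hφ hh i, Helper67.PI.fderiv_expand]
    rfl
  obtain ⟨hLIf, hspan, hdet⟩ := Helper67.PI.spans f h x y J hJ hLI
  have hnrm := Helper67.PI.nrm_eq hNR f h x y hLIf hLI hspan
  have hinv := Helper67.PI.gram_inv f h x y J hJ hdet
  have hgram := Helper67.PI.gram_eq f h x y J hJ
  obtain ⟨-, f2, -, -, f5, f6, -, -⟩ := hNR n N f y hLIf
  have hsff : ∀ i j, sff h x i j = ∑ a, ∑ b, (J i a * J j b) • sff f y a b := by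
    intro i j
    let T : EE N →ₗ[ℝ] EE N :=
      { toFun := nrm f y, map_add' := f5, map_smul' := f6 }
    have hT : ∀ v, T v = nrm f y v := fun v => rfl
    unfold sff
    rw [hnrm, Helper67.PI.second f h φ x hf hφ hh i j, f5, f2 _ (Helper67.PI.fderiv_mem f y _),
      add_zero, Helper67.PI.second_expand f y hf, ← hT, map_sum]
    refine Finset.sum_congr rfl fun a _ => ?_
    rw [map_sum]
    refine Finset.sum_congr rfl fun b _ => ?_
    rw [map_smul]
    rfl
  refine ⟨hLIf, J, hdet, hgram, hinv, ?_⟩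
  intro i j
  have hx : h x = f y := hh.eq_of_nhds
  have hg : gram h x i j = ∑ a, ∑ b, (J i a * J j b) * gram f y a b := by
    rw [hgram, Matrix.mul_apply]
    simp_rw [Matrix.mul_apply, Matrix.transpose_apply, Finset.sum_mul]
    rw [Finset.sum_comm]
    refine Finset.sum_congr rfl fun a _ => Finset.sum_congr rfl fun b _ => ?_
    ring
  unfold sfs
  rw [hsff, hx, hg, Finset.sum_smul, ← Finset.sum_add_distrib]
  refine Finset.sum_congr rfl fun a _ => ?_
  rw [Finset.sum_smul, ← Finset.sum_add_distrib]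
  refine Finset.sum_congr rfl fun b _ => ?_
  rw [smul_add, smul_smul]

/-- DIF. invariance under diffeomorphisms -/
theorem hDIF (_hI1 : StI1) (_hFR : StFR) (hNR : StNR) : StDIF := by
  intro N M _ _ _ Φ I F hF F' hF'
  have h2le : (2 : WithTop ℕ∞) ≤ ((⊤ : ℕ∞) : WithTop ℕ∞) := by
    have : ((2 : ℕ∞) : WithTop ℕ∞) ≤ ((⊤ : ℕ∞) : WithTop ℕ∞) := WithTop.coe_le_coe.2 le_top
    exact this
  -- smoothness
  have hsm : ContMDiffOn ((𝓡 2).prod 𝓘(ℝ, ℝ)) 𝓘(ℝ, EE N) ∞
      (fun z : S2 × ℝ => F' z.1 z.2) (univ ×ˢ I) := by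
    have h2 : ContMDiffOn ((𝓡 2).prod 𝓘(ℝ, ℝ)) ((𝓡 2).prod 𝓘(ℝ, ℝ)) ∞
        (fun z : S2 × ℝ => (Φ.symm z.1, z.2)) (univ ×ˢ I) := by
      refine ContMDiffOn.prodMk ?_ ?_
      · exact (Φ.symm.contMDiff.comp contMDiff_fst).contMDiffOn
      · exact contMDiff_snd.contMDiffOn
    have h3 := hF.smooth.comp h2 (fun z hz => ⟨mem_univ _, hz.2⟩)
    rw [hF']
    exact h3
  -- the map at a fixed time
  have hft : ∀ t ∈ I, ContMDiff (𝓡 2) 𝓘(ℝ, EE N) ∞ (fun y : S2 => F' y t) := by
    intro t ht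
    have h2 : ContMDiffOn (𝓡 2) ((𝓡 2).prod 𝓘(ℝ, ℝ)) ∞ (fun y : S2 => (y, t)) univ := by
      exact (contMDiff_id.prodMk contMDiff_const).contMDiffOn
    have h3 := hsm.comp h2 (fun z _ => ⟨mem_univ _, ht⟩)
    exact contMDiffOn_univ.1 h3
  -- the comparison at a point
  have key : ∀ q : M, ∀ t ∈ I, LI (loc (n := 2) F' (Φ q) t) (chartAt (EE 2) (Φ q) (Φ q)) ∧
      ∃ J : Matrix (Fin 2) (Fin 2) ℝ, IsUnit J.det ∧
      gM (n := 2) F q t = J * gM (n := 2) F' (Φ q) t * J.transpose ∧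
      J.transpose * (gM (n := 2) F q t)⁻¹ * J = (gM (n := 2) F' (Φ q) t)⁻¹ ∧
      ∀ i j, hM (n := 2) F q t i j = ∑ a, ∑ b, (J i a * J j b) • hM (n := 2) F' (Φ q) t a b := by
    intro q t ht
    have hqq : q ∈ (chartAt (EE 2) q).source := mem_chart_source (EE 2) q
    have hyy : Φ q ∈ (chartAt (EE 2) (Φ q)).source := mem_chart_source (EE 2) (Φ q)
    have hxt : chartAt (EE 2) q q ∈ (chartAt (EE 2) q).target :=
      (chartAt (EE 2) q).map_source hqq
    have hyt : chartAt (EE 2) (Φ q) (Φ q) ∈ (chartAt (EE 2) (Φ q)).target :=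
      (chartAt (EE 2) (Φ q)).map_source hyy
    have hsymm : (chartAt (EE 2) q).symm (chartAt (EE 2) q q) = q :=
      (chartAt (EE 2) q).left_inv hqq
    set φ : EE 2 → EE 2 := fun x => chartAt (EE 2) (Φ q) (Φ ((chartAt (EE 2) q).symm x)) with hφdef
    have hφx : φ (chartAt (EE 2) q q) = chartAt (EE 2) (Φ q) (Φ q) := by
      simp only [hφdef, hsymm]
    have hφ : ContDiffAt ℝ 2 φ (chartAt (EE 2) q q) := by
      have h1 : ContMDiffAt (𝓡 2) (𝓡 2) ∞ (chartAt (EE 2) q).symm (chartAt (EE 2) q q) :=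
        (contMDiffOn_chart_symm (I := 𝓡 2) (n := ∞) (x := q)).contMDiffAt
          ((chartAt (EE 2) q).open_target.mem_nhds hxt)
      have h2 : ContMDiffAt (𝓡 2) (𝓡 2) ∞ Φ ((chartAt (EE 2) q).symm (chartAt (EE 2) q q)) :=
        Φ.contMDiff.contMDiffAt
      have h3 : ContMDiffAt (𝓡 2) (𝓡 2) ∞ (chartAt (EE 2) (Φ q))
          (Φ ((chartAt (EE 2) q).symm (chartAt (EE 2) q q))) := by
        rw [hsymm]
        exact (contMDiffOn_chart (I := 𝓡 2) (n := ∞) (x := Φ q)).contMDiffAt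
          ((chartAt (EE 2) (Φ q)).open_source.mem_nhds hyy)
      have h21 : ContMDiffAt (𝓡 2) (𝓡 2) ∞ (fun x => Φ ((chartAt (EE 2) q).symm x))
          (chartAt (EE 2) q q) := h2.comp (chartAt (EE 2) q q) h1
      have h4 : ContMDiffAt (𝓡 2) (𝓡 2) ∞ φ (chartAt (EE 2) q q) :=
        ContMDiffAt.comp (chartAt (EE 2) q q) (g := chartAt (EE 2) (Φ q))
          (f := fun x => Φ ((chartAt (EE 2) q).symm x)) h3 h21
      have h5 : ContDiffAt ℝ ∞ φ (chartAt (EE 2) q q) := contMDiffAt_iff_contDiffAt.1 h4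
      exact h5.of_le h2le
    have hf : ContDiffAt ℝ 2 (loc (n := 2) F' (Φ q) t) (φ (chartAt (EE 2) q q)) := by
      rw [hφx]
      have h1 : ContMDiffAt (𝓡 2) (𝓡 2) ∞ (chartAt (EE 2) (Φ q)).symm
          (chartAt (EE 2) (Φ q) (Φ q)) :=
        (contMDiffOn_chart_symm (I := 𝓡 2) (n := ∞) (x := Φ q)).contMDiffAt
          ((chartAt (EE 2) (Φ q)).open_target.mem_nhds hyt)
      have h4 := (hft t ht).contMDiffAt.comp _ h1
      have h5 : ContDiffAt ℝ ∞ (loc (n := 2) F' (Φ q) t) (chartAt (EE 2) (Φ q) (Φ q)) :=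
        contMDiffAt_iff_contDiffAt.1 h4
      exact h5.of_le h2le
    have heq : loc (n := 2) F q t =ᶠ[𝓝 (chartAt (EE 2) q q)]
        (fun x => loc (n := 2) F' (Φ q) t (φ x)) := by
      have hc : ContinuousAt (fun x => Φ ((chartAt (EE 2) q).symm x)) (chartAt (EE 2) q q) := by
        have h1 := (chartAt (EE 2) q).continuousAt_symm hxt
        exact Φ.contMDiff.continuous.continuousAt.comp h1
      have hev : ∀ᶠ x in 𝓝 (chartAt (EE 2) q q),
          Φ ((chartAt (EE 2) q).symm x) ∈ (chartAt (EE 2) (Φ q)).source := by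
        apply hc.eventually_mem
        rw [hsymm]
        exact (chartAt (EE 2) (Φ q)).open_source.mem_nhds hyy
      filter_upwards [hev] with x hx
      simp only [loc, hφdef]
      rw [(chartAt (EE 2) (Φ q)).left_inv hx, hF']
      simp only [Diffeomorph.symm_apply_apply]
    have hLI : LI (loc (n := 2) F q t) (chartAt (EE 2) q q) := hF.imm q t ht
    have h := local_inv hNR (loc (n := 2) F' (Φ q) t) (loc (n := 2) F q t) φ
      (chartAt (EE 2) q q) hf hφ heq hLI
    rw [hφx] at h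
    exact h
  have hHS : ∀ q : M, ∀ t ∈ I, HS (n := 2) F' (Φ q) t = HS (n := 2) F q t := by
    intro q t ht
    obtain ⟨-, J, -, -, hinv, hsf⟩ := key q t ht
    unfold HS
    simp_rw [hsf]
    rw [Helper67.PI.contr, hinv]
  refine ⟨⟨hsm, ?_, ?_, ?_⟩, ?_, ?_⟩
  · intro p t ht
    have h := (key (Φ.symm p) t ht).1
    rw [Φ.apply_symm_apply] at h
    exact h
  · intro p t ht
    rw [hF']
    exact hF.sph _ t ht
  · intro p t ht
    have h1 := hF.flow (Φ.symm p) t ht
    have h2 := hHS (Φ.symm p) t ht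
    rw [Φ.apply_symm_apply] at h2
    rw [h2]
    have h3 : (fun τ => F' p τ) = (fun τ => F (Φ.symm p) τ) := by rw [hF']
    rw [h3]
    exact h1
  · intro t ht hP y u hu
    obtain ⟨q, rfl⟩ : ∃ q, Φ q = y := ⟨Φ.symm y, Φ.apply_symm_apply y⟩
    obtain ⟨-, J, hdet, hg, -, hsf⟩ := key q t ht
    set v : Fin 2 → ℝ := u ᵥ* J⁻¹ with hv
    have hvJ : ∀ a, ∑ i, v i * J i a = u a := by
      intro a
      have h1 : (v ᵥ* J) a = u a := by
        rw [hv, Matrix.vecMul_vecMul, Matrix.nonsing_inv_mul _ hdet, Matrix.vecMul_one]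
      exact h1
    have hquad : ∀ (V : Type) [AddCommGroup V] [Module ℝ V] (S : Fin 2 → Fin 2 → V),
        ∑ i, ∑ j, (v i * v j) • ∑ a, ∑ b, (J i a * J j b) • S a b
          = ∑ a, ∑ b, (u a * u b) • S a b := by
      intro V _ _ S
      have h1 := Helper67.PI.contr (Matrix.of fun i j => v i * v j) J S
      simp only [Matrix.of_apply] at h1
      rw [h1]
      refine Finset.sum_congr rfl fun a _ => Finset.sum_congr rfl fun b _ => ?_
      congr 1
      rw [← hvJ a, ← hvJ b, Matrix.mul_apply, Finset.sum_mul_sum, Finset.sum_comm]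
      refine Finset.sum_congr rfl fun j _ => ?_
      rw [Matrix.mul_apply, Finset.sum_mul]
      refine Finset.sum_congr rfl fun i _ => ?_
      rw [Matrix.transpose_apply, Matrix.of_apply]
      ring
    have hgij : ∀ i j, gM (n := 2) F q t i j
        = ∑ a, ∑ b, (J i a * J j b) • gM (n := 2) F' (Φ q) t a b := by
      intro i j
      rw [hg, Matrix.mul_apply]
      simp_rw [Matrix.mul_apply, Matrix.transpose_apply, Finset.sum_mul, smul_eq_mul]
      rw [Finset.sum_comm]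
      refine Finset.sum_congr rfl fun a _ => Finset.sum_congr rfl fun b _ => ?_
      ring
    have h1 : ∑ i, ∑ j, gM (n := 2) F q t i j * (v i * v j) = 1 := by
      rw [← hu]
      have h2 := hquad ℝ (fun a b => gM (n := 2) F' (Φ q) t a b)
      simp only [smul_eq_mul] at h2 hgij
      simp_rw [hgij]
      have h3 : ∀ i j, (∑ a, ∑ b, J i a * J j b * gM (n := 2) F' (Φ q) t a b) * (v i * v j)
          = v i * v j * ∑ a, ∑ b, J i a * J j b * gM (n := 2) F' (Φ q) t a b :=
        fun i j => mul_comm _ _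
      simp_rw [h3]
      rw [h2]
      refine Finset.sum_congr rfl fun a _ => Finset.sum_congr rfl fun b _ => ?_
      ring
    have h2 := hP q v h1
    have h3 := hquad (EE N) (fun a b => hM (n := 2) F' (Φ q) t a b)
    simp_rw [hsf] at h2
    rw [h3] at h2
    exact h2
  · intro q t ht
    refine ⟨hHS q t ht, ?_⟩
    obtain ⟨-, J, -, -, hinv, hsf⟩ := key q t ht
    unfold hS2
    exact (Helper67.PI.contr4 _ _ J hinv _ _ hsf).symm

end Helper24.MS
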